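import Pool.Agent.H7.KQ.Loc

/-! # Row IND -/

set_option autoImplicit false

open Finset

namespace Pool.KQ

open Pool.Agent.H23.KT Pool.Agent.H46.KW

lemma gw_eq (p i : ℕ) : gw p i = 1 - (if i = p + 2 then 1 else 0) -
    (1 - gam p) * (if i = p + 1 then 1 else 0) := by
  unfold gw
  by_cases h1 : i = p + 2
  · rw [if_pos h1, if_pos h1, if_neg (by omega)]
    ring
  · rw [if_neg h1, if_neg h1]
    by_cases h2 : i = p + 1
    · rw [if_pos h2, if_pos h2]
      ring
    · rw [if_neg h2, if_neg h2]
      ring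

theorem ind (hBAL : BALStmt) : INDStmt := by
  intro V _ G p r a H u hu hc h1 h2
  classical
  have hnb : nb G (insert u H) u = nb G H u := by
    ext x
    rw [mem_nb, mem_nb, mem_insert]
    constructor
    · rintro ⟨rfl | h, h'⟩
      · exact absurd h' (G.loopless.irrefl _)
      · exact ⟨h, h'⟩
    · rintro ⟨h, h'⟩
      exact ⟨Or.inr h, h'⟩
  have hk : kc G (insert u H) (p + 3) = kc G H (p + 3) + kc G (nb G H u) (p + 2) := by
    have := kc_succ G (mem_insert_self u H) (p + 2)
    rw [erase_insert hu, hnb] at this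
    exact this
  have hsub : clq G H (p + 3) ⊆ clq G (insert u H) (p + 3) := by
    intro K hK
    rw [mem_clq] at hK ⊢
    exact ⟨hK.1.trans (subset_insert _ _), hK.2⟩
  have hcard : ((clq G (insert u H) (p + 3) \ clq G H (p + 3)).card : ℝ) =
      kc G (nb G H u) (p + 2) := by
    rw [card_sdiff_of_subset hsub, ← kc_eq, ← kc_eq, hk]
    congr 1
    omega
  rw [← sum_sdiff hsub, card_insert_of_notMem hu, hk]
  have hA : ∑ K ∈ clq G (insert u H) (p + 3) \ clq G H (p + 3),
      min (r : ℝ) (sw G p (insert u H) K) ≤ kc G (nb G H u) (p + 2) * r := by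
    rw [← hcard, ← nsmul_eq_mul]
    exact sum_le_card_nsmul _ _ _ fun K _ => min_le_left _ _
  have hB : ∑ K ∈ clq G H (p + 3), min (r : ℝ) (sw G p (insert u H) K) ≤
      ∑ K ∈ clq G H (p + 3), (min (r : ℝ) (sw G p H K) + gw p (nb G K u).card) := by
    apply sum_le_sum
    intro K _
    have h3 : sw G p (insert u H) K = gw p (nb G K u).card + sw G p H K := by
      unfold sw
      rw [sum_insert hu]
    rw [h3]
    have h4 := gw_nonneg p (nb G K u).card
    rcases le_total (r : ℝ) (sw G p H K) with h5 | h5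
    · rw [min_eq_left h5]
      exact (min_le_left _ _).trans (by linarith)
    · rw [min_eq_right h5]
      exact (min_le_right _ _).trans (by linarith)
  have hC : ∑ K ∈ clq G H (p + 3), gw p (nb G K u).card = kc G H (p + 3) -
      cc G p H (p + 2) u - (1 - gam p) * cc G p H (p + 1) u := by
    rw [sum_congr rfl fun K _ => gw_eq p (nb G K u).card, sum_sub_distrib, sum_sub_distrib,
      ← mul_sum, sum_const, nsmul_eq_mul, mul_one, sum_boole, sum_boole, kc_eq]
    rfl
  rw [sum_add_distrib, hC] at hB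
  have hD := hBAL.1 (p + 3) a H.card (by omega) hc
  push_cast
  have e : (a : ℝ) * ((bal (p + 3) (H.card + 1) : ℝ) -
      ((kc G H (p + 3) : ℝ) + kc G (nb G H u) (p + 2))) =
      a * ((bal (p + 3) (H.card + 1) : ℝ) - bal (p + 3) H.card) +
      a * ((bal (p + 3) H.card : ℝ) - kc G H (p + 3)) - a * kc G (nb G H u) (p + 2) := by ring
  rw [e]
  linarith

end Pool.KQ
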