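import Pool.Agent.H7.KQ.Final
import Pool.Agent.H7.KQ.IND
import Pool.Agent.H1.KQ.CSC
import Pool.Agent.H14.KQ.GLO
import Pool.Agent.H14.KQ.SLK
import Pool.Agent.H17.KQ.AMG
import Pool.Agent.H17.KQ.WST
import Pool.Agent.H18.KQ.BAL
import Pool.Agent.H22.KQ.BRK
import Pool.Agent.H29.KQ.CSA
import Pool.Agent.H29.KQ.CSB
import Pool.Agent.H3.KQ.REA
import Pool.Agent.H45.KQ.PRE
import Pool.Agent.H52.KQ.TUR
import Pool.Agent.H56.KQ.KBD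
import Pool.Agent.H60.KQ.BAS
import Pool.Agent.H66.KQ.TRV
import Pool.Agent.H70.KQ.BPR
import Pool.Agent.H71.KQ.EXT
import Pool.Agent.H78.KQ.EXC
import Pool.Agent.H86.KQ.PRT
import Pool.Agent.H86.KQ.RPI
import Pool.Agent.H88.KQ.KZR

/-! # All rows of the board `kq` -/

set_option autoImplicit false

open Finset

namespace Pool.KQ

theorem glo_all : GLOStmt := glo wst

theorem loc_all : LOCStmt :=
  loc bal_row bpr (pre kzr prt amg trv_thm brk) (rea (rpi brk)) (BAS trv_thm)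
    (exc (csc csa (csb trv_thm brk) trv_thm) ext kbd (slk bal_row kbd)) (ind bal_row)

theorem all : ∃ D : ℕ → ℕ, ∀ ω Δ : ℕ, 4 ≤ ω →
    (Δ % (ω - 1) ≤ ω - 3 ∧ D ω ≤ Δ) ∨
      (Δ % (ω - 1) = 1 ∧ ω - 1 ≤ Δ / (ω - 1) ∧ ω * (ω - 2) ^ 3 ≤ 16 * (Δ / (ω - 1))) →
    (∀ v, ((SimpleGraph.turanGraph (Δ + Δ / (ω - 1)) ω).neighborSet v).ncard ≤ Δ) ∧
    (SimpleGraph.turanGraph (Δ + Δ / (ω - 1)) ω).CliqueFree (ω + 1) ∧
    {s : Finset (Fin (Δ + Δ / (ω - 1))) |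
        (SimpleGraph.turanGraph (Δ + Δ / (ω - 1)) ω).IsNClique ω s}.ncard
      = (Δ / (ω - 1)) ^ (ω - Δ % (ω - 1)) * (Δ / (ω - 1) + 1) ^ (Δ % (ω - 1)) ∧
    ∀ m : ℕ, 0 < m → ∀ H : SimpleGraph (Fin m),
      (∀ v, (H.neighborSet v).ncard ≤ Δ) → H.CliqueFree (ω + 1) →
        {s : Finset (Fin m) | H.IsNClique ω s}.ncard * (Δ + Δ / (ω - 1)) ≤
          {s : Finset (Fin (Δ + Δ / (ω - 1))) |
            (SimpleGraph.turanGraph (Δ + Δ / (ω - 1)) ω).IsNClique ω s}.ncard * m :=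
  final glo_all tur loc_all


end Pool.KQ
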