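import Pool.Agent.H7.KQ.Loc

/-! # The bound for all graphs: assembly -/

set_option autoImplicit false

open Finset

namespace Pool.KQ

open Pool.Agent.H23.KT Pool.Agent.H46.KW

/-- The bound for all graphs with vertex set `Fin m`. -/
theorem upper (hGLO : GLOStmt) (hTUR : TURStmt) (hLOC : LOCStmt) (p r : ℕ) (hr : r ≤ p + 1) :
    ∃ a₀ : ℕ, ∀ a ≥ a₀, ∀ (m : ℕ) (H : SimpleGraph (Fin m)),
      (∀ v, (H.neighborSet v).ncard ≤ (p + 3) * a + r) → H.CliqueFree (p + 5) →
        {s : Finset (Fin m) | H.IsNClique (p + 4) s}.ncard * ((p + 4) * a + r)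
          ≤ a ^ (p + 4 - r) * (a + 1) ^ r * m := by
  obtain ⟨a₀, h0⟩ := hLOC p r hr
  refine ⟨max a₀ 1, ?_⟩
  intro a ha m H hdeg hcf
  have ha0 : a₀ ≤ a := le_trans (le_max_left _ _) ha
  have ha1 : 1 ≤ a := le_trans (le_max_right _ _) ha
  have hdeg' : ∀ v, (nb H univ v).card ≤ (p + 3) * a + r := by
    intro v
    have h1 : ((nb H univ v : Finset (Fin m)) : Set (Fin m)) = H.neighborSet v := by
      ext w
      rw [mem_coe, mem_nb, SimpleGraph.mem_neighborSet]
      simp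
    rw [← Set.ncard_coe_finset, h1]
    exact hdeg v
  have hCB : CB H (univ : Finset (Fin m)) (p + 4) := by
    intro S _ hS
    by_contra hlt
    push Not at hlt
    obtain ⟨S', hS', hc'⟩ := exists_subset_card_eq (show p + 5 ≤ S.card by omega)
    exact hcf S' ⟨hS.subset (by
      intro y hy
      exact mem_coe.2 (hS' (mem_coe.1 hy))), hc'⟩
  have h1 := hGLO H p r a hr hCB hdeg' (fun v => h0 a ha0 H _ (hCB.nb (mem_univ v)) (hdeg' v))
  have h2 := (hTUR p r a hr ha1).2.2.2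
  rw [Fintype.card_fin] at h1
  rw [ncard_eq_kc, ← h2]
  have h3 : ((kc H univ (p + 4) * ((p + 4) * a + r) : ℕ) : ℝ) ≤
      ((a * bal (p + 3) ((p + 3) * a + r) * m : ℕ) : ℝ) := by
    push_cast
    exact h1
  exact_mod_cast h3

end Pool.KQ
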