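import Pool.Agent.H46.KW.Local
import Pool.Agent.H46.KW.Tur

/-!
# The maximal density of the cliques of the largest size, `Δ ≡ 1` modulo `ω - 1`
-/

open Finset

namespace Pool.KQ.Old

open Pool.Agent.H23.KT Pool.Agent.H46.KW

/-- **Theorem.** Let `ω ≥ 4`, let `Δ` be congruent to one modulo `ω - 1` and let
`a = ⌊Δ / (ω - 1)⌋` satisfy `a ≥ ω - 1` and `16 a ≥ ω (ω - 2) ^ 3`. The Turán graph with `Δ + a`
vertices and `ω` parts has maximum degree at most `Δ`, no clique of size `ω + 1`, exactly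
`a ^ (ω - 1) * (a + 1)` cliques of size `ω`, and it maximises the number of `ω`-cliques per vertex
among all graphs with maximum degree at most `Δ` and clique number at most `ω`. -/
theorem result : ∀ ω Δ : ℕ, 4 ≤ ω → Δ % (ω - 1) = 1 → ω - 1 ≤ Δ / (ω - 1) →
    ω * (ω - 2) ^ 3 ≤ 16 * (Δ / (ω - 1)) →
    (∀ v, ((SimpleGraph.turanGraph (Δ + Δ / (ω - 1)) ω).neighborSet v).ncard ≤ Δ) ∧
    (SimpleGraph.turanGraph (Δ + Δ / (ω - 1)) ω).CliqueFree (ω + 1) ∧
    {s : Finset (Fin (Δ + Δ / (ω - 1))) |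
        (SimpleGraph.turanGraph (Δ + Δ / (ω - 1)) ω).IsNClique ω s}.ncard
      = (Δ / (ω - 1)) ^ (ω - 1) * (Δ / (ω - 1) + 1) ∧
    ∀ m : ℕ, 0 < m → ∀ H : SimpleGraph (Fin m),
      (∀ v, (H.neighborSet v).ncard ≤ Δ) → H.CliqueFree (ω + 1) →
        {s : Finset (Fin m) | H.IsNClique ω s}.ncard * (Δ + Δ / (ω - 1)) ≤
          {s : Finset (Fin (Δ + Δ / (ω - 1))) |
            (SimpleGraph.turanGraph (Δ + Δ / (ω - 1)) ω).IsNClique ω s}.ncard * m := by
  classical
  intro ω Δ hω hmod ha1 ha2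
  obtain ⟨p, rfl⟩ : ∃ p, ω = p + 4 := ⟨ω - 4, by omega⟩
  have e1 : p + 4 - 1 = p + 3 := by omega
  have e2 : p + 4 - 2 = p + 2 := by omega
  rw [e1] at hmod ha1 ha2
  rw [e2] at ha2
  rw [e1]
  set a := Δ / (p + 3) with ha
  have hΔ : Δ = (p + 3) * a + 1 := by
    have := Nat.div_add_mod Δ (p + 3)
    rw [hmod, ← ha] at this
    exact this.symm
  clear_value a
  subst hΔ
  have e3 : (p + 3) * a + 1 + a = (p + 4) * a + 1 := by ring
  rw [e3]
  -- the bound for all graphs
  have hub : ∀ m : ℕ, ∀ H : SimpleGraph (Fin m),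
      (∀ v, (H.neighborSet v).ncard ≤ (p + 3) * a + 1) → H.CliqueFree (p + 4 + 1) →
        {s : Finset (Fin m) | H.IsNClique (p + 4) s}.ncard * ((p + 4) * a + 1)
          ≤ a ^ (p + 3) * (a + 1) * m := by
    intro m H hdeg hcf
    have hdeg' : ∀ v, (nb H univ v).card ≤ (p + 3) * a + 1 := by
      intro v
      have h1 : ((nb H univ v : Finset (Fin m)) : Set (Fin m)) = H.neighborSet v := by
        ext w
        rw [mem_coe, mem_nb, SimpleGraph.mem_neighborSet]
        simp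
      rw [← Set.ncard_coe_finset, h1]
      exact hdeg v
    have hCB : CB H (univ : Finset (Fin m)) (p + 4) := by
      intro S _ hS
      by_contra hlt
      push Not at hlt
      obtain ⟨S', hS', hc'⟩ := exists_subset_card_eq (show p + 4 + 1 ≤ S.card by omega)
      exact hcf S' ⟨hS.subset (by
        intro y hy
        exact mem_coe.2 (hS' (mem_coe.1 hy))), hc'⟩
    have h1 := global hCB hdeg' ha1 ha2
    rw [Fintype.card_fin] at h1
    rw [ncard_eq_kc]
    exact h1
  have hdegT := tur_deg (p + 3) a (by omega)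
  have hcfT : (SimpleGraph.turanGraph ((p + 4) * a + 1) (p + 4)).CliqueFree (p + 4 + 1) :=
    SimpleGraph.turanGraph_cliqueFree (by omega)
  have hcount : {s : Finset (Fin ((p + 4) * a + 1)) |
      (SimpleGraph.turanGraph ((p + 4) * a + 1) (p + 4)).IsNClique (p + 4) s}.ncard
        = a ^ (p + 3) * (a + 1) := by
    apply le_antisymm
    · exact Nat.le_of_mul_le_mul_right (hub _ _ hdegT hcfT) (Nat.succ_pos _)
    · exact tur_lower (p + 3) a
  refine ⟨hdegT, hcfT, hcount, ?_⟩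
  intro m _ H hdeg hcf
  rw [hcount]
  exact hub m H hdeg hcf

end Pool.KQ.Old
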