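import Pool.Agent.H7.KQ.Fin
import Pool.Agent.H7.KQ.Old

/-! # The final statement: assembly -/

set_option autoImplicit false

open Finset

namespace Pool.KQ

theorem final (hGLO : GLOStmt) (hTUR : TURStmt) (hLOC : LOCStmt) :
    ∃ D : ℕ → ℕ, ∀ ω Δ : ℕ, 4 ≤ ω →
    (Δ % (ω - 1) ≤ ω - 3 ∧ D ω ≤ Δ) ∨
      (Δ % (ω - 1) = 1 ∧ ω - 1 ≤ Δ / (ω - 1) ∧ ω * (ω - 2) ^ 3 ≤ 16 * (Δ / (ω - 1))) →
    (∀ v, ((SimpleGraph.turanGraph (Δ + Δ / (ω - 1)) ω).neighborSet v).ncard ≤ Δ) ∧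
    (SimpleGraph.turanGraph (Δ + Δ / (ω - 1)) ω).CliqueFree (ω + 1) ∧
    {s : Finset (Fin (Δ + Δ / (ω - 1))) |
        (SimpleGraph.turanGraph (Δ + Δ / (ω - 1)) ω).IsNClique ω s}.ncard
      = (Δ / (ω - 1)) ^ (ω - Δ % (ω - 1)) * (Δ / (ω - 1) + 1) ^ (Δ % (ω - 1)) ∧
    ∀ m : ℕ, 0 < m → ∀ H : SimpleGraph (Fin m),
      (∀ v, (H.neighborSet v).ncard ≤ Δ) → H.CliqueFree (ω + 1) →
        {s : Finset (Fin m) | H.IsNClique ω s}.ncard * (Δ + Δ / (ω - 1)) ≤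
          {s : Finset (Fin (Δ + Δ / (ω - 1))) |
            (SimpleGraph.turanGraph (Δ + Δ / (ω - 1)) ω).IsNClique ω s}.ncard * m := by
  have hu : ∀ p r : ℕ, ∃ a₀ : ℕ, r ≤ p + 1 → ∀ a ≥ a₀, ∀ (m : ℕ) (H : SimpleGraph (Fin m)),
      (∀ v, (H.neighborSet v).ncard ≤ (p + 3) * a + r) → H.CliqueFree (p + 5) →
        {s : Finset (Fin m) | H.IsNClique (p + 4) s}.ncard * ((p + 4) * a + r)
          ≤ a ^ (p + 4 - r) * (a + 1) ^ r * m := by
    intro p r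
    by_cases hr : r ≤ p + 1
    · obtain ⟨a₀, h⟩ := upper hGLO hTUR hLOC p r hr
      exact ⟨a₀, fun _ => h⟩
    · exact ⟨0, fun h => absurd h hr⟩
  choose A hA using hu
  refine ⟨fun ω => (ω - 1) * (∑ r ∈ range (ω - 2), A (ω - 4) r + 1), ?_⟩
  intro ω Δ hω hcase
  rcases hcase with ⟨hmod, hD⟩ | ⟨h1, h2, h3⟩
  · obtain ⟨p, rfl⟩ : ∃ p, ω = p + 4 := ⟨ω - 4, by omega⟩
    have e1 : p + 4 - 1 = p + 3 := by omega
    have e2 : p + 4 - 2 = p + 2 := by omega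
    have e3 : p + 4 - 3 = p + 1 := by omega
    have e4 : p + 4 - 4 = p := by omega
    rw [e1, e3] at hmod
    simp only [e1, e2, e4] at hD
    rw [e1]
    obtain ⟨r, hr⟩ : ∃ r, r = Δ % (p + 3) := ⟨_, rfl⟩
    obtain ⟨a, ha⟩ : ∃ a, a = Δ / (p + 3) := ⟨_, rfl⟩
    rw [← hr, ← ha]
    rw [← hr] at hmod
    have hΔ : Δ = (p + 3) * a + r := by
      rw [hr, ha]
      exact (Nat.div_add_mod Δ (p + 3)).symm
    have haD : ∑ r ∈ range (p + 2), A p r + 1 ≤ a := by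
      rw [ha, Nat.le_div_iff_mul_le (by omega), mul_comm]
      exact hD
    have haA : A p r ≤ a := by
      have h4 : A p r ≤ ∑ r ∈ range (p + 2), A p r :=
        single_le_sum (f := fun r => A p r) (fun _ _ => Nat.zero_le _)
          (mem_range.2 (by omega))
      omega
    have hsum : Δ + a = (p + 4) * a + r := by
      rw [hΔ]
      ring
    obtain ⟨t1, t2, t3, _⟩ := hTUR p r a hmod (by omega)
    have hup := hA p r hmod a haA
    clear hr ha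
    subst hΔ
    rw [hsum]
    refine ⟨t1, t2, t3, ?_⟩
    intro m _ H hdeg hcf
    rw [t3]
    exact hup m H hdeg hcf
  · have := Old.result ω Δ hω h1 h2 h3
    rw [h1]
    rw [pow_one]
    exact this

end Pool.KQ
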