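import Pool.Agent.H46.KW.Local
import Pool.Agent.H46.KW.Tur

/-!
# Cliques of the largest size: statements of the board `kq` (MP_fd41b2_co)

`b = p + 3 = ω - 1` parts, `Δ = (p + 3) a + r` with `r ≤ p + 1`. Row `XXX` = `def XXXStmt : Prop`.
Library (read `Pool/Agent/H23/KT/Base.lean`, `Gen.lean` and `Pool/Agent/H46/KW/{Bal,Zyk,Local}.lean`
first): `kc G W j` = number of `j`-cliques in `W`, `clq G W j` = the set of them (`mem_clq`, `kc_eq`),
`nb G W x` = neighbours of `x` in `W` (`mem_nb`), `CB G W r` = all cliques in `W` have at most `r`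
vertices (`CB.mono`, `CB.nb`), `cn G W R` = common neighbours of `R` in `W` (`mem_cn`),
`nz G W L z = (cn G W (L.erase z)).card`, `bal q N` = number of `q`-cliques of the Turán graph with
`N` vertices and `q` parts, `bal_step`, `bal_mono`, `bal_mul`, `bal_zero`, `bal_one`, `zyk` (Zykov),
`zyk_real'`, `sum_facets`, `sum_card_cn`, `facets_cs`, `not_all`, `parts_disj`, `parts_ind`,
`sum_nz_le`, `sum_link`, `kc_succ`, `kc_mono`, `kc_le_choose`, `kc_le_sum`, `clq_insert`, `clq_erase'`.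
-/

set_option autoImplicit false

open Finset

namespace Pool.KQ

open Pool.Agent.H23.KT Pool.Agent.H46.KW

/-! ### Definitions -/

/-- `(b - 2) / (2 (b - 1))`, less than `1 / 2`. -/
noncomputable def gam (p : ℕ) : ℝ := ((p : ℝ) + 1) / (2 * ((p : ℝ) + 2))

/-- The weight of a vertex with `i` neighbours in a clique with `p + 3` vertices. -/
noncomputable def gw (p i : ℕ) : ℝ := if i = p + 2 then 0 else if i = p + 1 then gam p else 1

/-- The weight of the clique `K` in `W`. -/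
noncomputable def sw {V : Type} (G : SimpleGraph V) (p : ℕ) (W K : Finset V) : ℝ :=
  ∑ z ∈ W, gw p (nb G K z).card

open Classical in
/-- The vertices of `X` which are not neighbours of `u` (so `u` itself if `u ∈ X`). -/
noncomputable def non {V : Type} (G : SimpleGraph V) (X : Finset V) (u : V) : Finset V :=
  X.filter (fun y => ¬ G.Adj u y)

/-- The number of ordered pairs of nonadjacent vertices in different parts. -/
noncomputable def tot {V : Type} (G : SimpleGraph V) {b : ℕ} (P : Fin b → Finset V) : ℕ :=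
  ∑ i, ∑ k ∈ univ.erase i, ∑ u ∈ P i, (non G (P k) u).card

/-- The union of the parts. -/
def un {V : Type} [DecidableEq V] {b : ℕ} (P : Fin b → Finset V) : Finset V := univ.biUnion P

open Classical in
/-- The transversals which are cliques. -/
noncomputable def trv {V : Type} (G : SimpleGraph V) {b : ℕ} (P : Fin b → Finset V) :
    Finset (Fin b → V) :=
  (Fintype.piFinset P).filter (fun f => ∀ i j, i ≠ j → G.Adj (f i) (f j))

/-- Disjoint independent sets. -/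
structure Par {V : Type} (G : SimpleGraph V) {b : ℕ} (P : Fin b → Finset V) : Prop where
  dis : ∀ i j, i ≠ j → Disjoint (P i) (P j)
  ind : ∀ i, ∀ u ∈ P i, ∀ w ∈ P i, ¬ G.Adj u w

/-- The number of `(p + 3)`-cliques in `H` in which `u` has exactly `j` neighbours. -/
noncomputable def cc {V : Type} (G : SimpleGraph V) (p : ℕ) (H : Finset V) (j : ℕ) (u : V) : ℕ :=
  ((clq G H (p + 3)).filter (fun K => (nb G K u).card = j)).card

/-- A small constant. -/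
noncomputable def e1 (p : ℕ) : ℝ := 1 / (16 * ((p : ℝ) + 3) ^ 3)

/-- The structure of a dense graph: `p + 3` nearly complete parts and few exceptional vertices. -/
structure Str {V : Type} (G : SimpleGraph V) (p a : ℕ) (e C : ℝ) (W : Finset V)
    (P : Fin (p + 3) → Finset V) (U : Finset V) : Prop where
  par : Par G P
  disU : ∀ i, Disjoint (P i) U
  cov : ∀ u, u ∈ W ↔ u ∈ U ∨ ∃ i, u ∈ P i
  lo : ∀ i, (1 - e) * a ≤ ((P i).card : ℝ)
  hi : ∀ i, ((P i).card : ℝ) ≤ (1 + e) * a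
  mis : ∀ i, ∀ u ∈ P i, ∀ k, k ≠ i → ((non G (P k) u).card : ℝ) ≤ e1 p * a
  tot : (tot G P : ℝ) ≤ C * a
  cU : (U.card : ℝ) ≤ C
  exc : ∀ u ∈ U, ∀ i, ∃ k, k ≠ i ∧ e1 p / 4 * a ≤ ((non G (P k) u).card : ℝ)

/-! ### Numbers -/

/-- (BAL) Differences of `bal`. All from `bal_step : bal q (N+1) * (N/q) = bal q N * (N/q + 1)`.
Let `s = N / q`. If `s = 0` then `bal q N = 0` (`bal_zero`, as `N < q`) and (1), (3) follow from
`bal_mono` (`0 ^ (p+2) = 0`). If `s ≥ 1`: `bal (N+1) - bal N = bal N / s`; `N + 1 ≤ q a + q` gives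
`s ≤ a`, so (1); (3): `bal q N ≥ s ^ q` by definition. (2) by induction on `M` from (1) and
`bal_mono`: `(M + 1 - N) bal N ≤ a (bal M - bal N) + bal M ≤ a (bal (M+1) - bal N)`. -/
def BALStmt : Prop :=
  (∀ q a N : ℕ, 1 ≤ q → N + 1 ≤ q * a + q →
    (bal q N : ℝ) ≤ a * ((bal q (N + 1) : ℝ) - bal q N)) ∧
  (∀ q a N M : ℕ, 1 ≤ q → N ≤ M → M ≤ q * a + q →
    ((M : ℝ) - N) * bal q N ≤ a * ((bal q M : ℝ) - bal q N)) ∧
  (∀ p N : ℕ, (((N / (p + 3) : ℕ) : ℝ)) ^ (p + 2) ≤ (bal (p + 3) (N + 1) : ℝ) - bal (p + 3) N)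

/-- (BPR) A product is at most the balanced product. Induction on `n` with
`Fin.prod_univ_succ`, `Fin.sum_univ_succ` and `bal_mul : n * bal q N ≤ bal (q + 1) (N + n)`
(`q ≥ 1`); base case `bal_one`. -/
def BPRStmt : Prop :=
  ∀ (n : ℕ) (x : Fin (n + 1) → ℕ), ∏ i, x i ≤ bal (n + 1) (∑ i, x i)

/-- (AMG) Stability of the inequality between the means.
PROOF. Let `m = (x i + x j) / 2`, `d = x i - x j`, `Q` = product of the other `x k`. By the inequality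
between the means for the vector with `x i`, `x j` replaced by `m` (`Function.update` twice;
`Real.inner_le_nnorm_mul_nnorm` is not needed: `Real.geom_mean_le_arith_mean_weighted` or
`inner_mul_le_norm_mul_norm`-free: use `Real.inner...`; simplest is
`Real.geom_mean_le_arith_mean_weighted univ (fun _ => 1/n) z` raised to the power `n`), `m ^ 2 * Q ≤
(S / n) ^ n`. `x i * x j = m ^ 2 - d ^ 2 / 4` and `(m ^ 2 - d ^ 2 / 4) S ^ 2 ≤ m ^ 2 (S ^ 2 - d ^ 2)`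
because `2 m ≤ S`; `0 ≤ S ^ 2 - d ^ 2` as `|d| ≤ x i + x j ≤ S`. -/
def AMGStmt : Prop :=
  ∀ (n : ℕ) (x : Fin n → ℝ) (S : ℝ), (∀ i, 0 ≤ x i) → ∑ i, x i ≤ S → ∀ i j, i ≠ j →
    (∏ k, x k) * S ^ 2 ≤ (S / n) ^ n * (S ^ 2 - (x i - x j) ^ 2)

/-! ### The global part -/

/-- (WST) Every clique with `ω = p + 4` vertices has weight at least `r`.
PROOF. `K` such a clique, `N` = `Δ = (p+3) a + r`. For a vertex `z` let `ι z = (nb G K z).card`;
`ι z ≤ p + 3` for all `z`: for `z ∈ K` it is `p + 3`; for `z ∉ K` because `CB G univ (p + 4)`.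
For `v ∈ K` and `z ∈ nb G univ v` the number `(nb G (K.erase v) z).card` is `ι z - 1`. Hence
`∑_(v ∈ K) sw G p (nb G univ v) (K.erase v) = ∑_z ι z * gw p (ι z - 1)
= s + γ (p + 2) n₁` where `n₁ = #{z : ι z = p + 2}`, `s = ∑_(z : ι z ≤ p + 1) ι z`, and `γ = gam p`.
And `∑_(v ∈ K) (nb G univ v).card = ∑_z ι z = (p + 3) n₀ + (p + 2) n₁ + s`,
`n₀ = #{z : ι z = p + 3}`. So with `x = ∑_(v ∈ K) (N - (nb G univ v).card) ≥ 0` (an integer):
`x + (p + 2) n₁ + s = (p + 4) ((p + 3) a + r) - (p + 3) n₀ = (p + 3) ((p + 4) a + r - n₀) + r`.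
CLAIM `x + s + γ (p + 2) n₁ ≥ r`. If `n₁ = 0`: `x + s ≥ 0` is `≡ r` modulo `p + 3` and `r < p + 3`, so
`≥ r`. If `n₁ = 1`: `x + s = (p + 3) (t - 1) + r + 1` with an integer `t`, `r + 1 < p + 3`, so
`x + s ≥ r + 1`. If `n₁ ≥ 2`: `γ (p + 2) 2 = p + 1 ≥ r`. Finally `∑ min r w_v ≥ min r (∑ w_v)` for
`w_v ≥ 0` (induction over a finset). -/
def WSTStmt : Prop :=
  ∀ {V : Type} [Fintype V] [DecidableEq V] (G : SimpleGraph V) (p r a : ℕ), r ≤ p + 1 →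
    CB G univ (p + 4) → (∀ v, (nb G univ v).card ≤ (p + 3) * a + r) →
    ∀ K ∈ clq G univ (p + 4), (r : ℝ) ≤ ∑ v ∈ K, min (r : ℝ)
      ((((p + 3) * a + r : ℕ) : ℝ) - (nb G univ v).card + sw G p (nb G univ v) (K.erase v))

/-- (GLO) Local to global. Needs WST. PROOF. Sum the local inequality over `v` and exchange
(`sum_link` is for naturals: copy it, or copy the proof of `Pool.Agent.H46.KW.global`):
`r * kc ≤ ∑_K ∑_(v ∈ K) w = ∑_v (local sum) ≤ a (card V * bal - ∑_v kc G (nb G univ v) (p + 3))` and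
`∑_v kc G (nb G univ v) (p + 3) = (p + 4) kc G univ (p + 4)`. -/
def GLOStmt : Prop :=
  ∀ {V : Type} [Fintype V] [DecidableEq V] (G : SimpleGraph V) (p r a : ℕ), r ≤ p + 1 →
    CB G univ (p + 4) → (∀ v, (nb G univ v).card ≤ (p + 3) * a + r) →
    (∀ v, ∑ L ∈ clq G (nb G univ v) (p + 3), min (r : ℝ)
      ((((p + 3) * a + r : ℕ) : ℝ) - (nb G univ v).card + sw G p (nb G univ v) L) ≤
        a * ((bal (p + 3) ((p + 3) * a + r) : ℝ) - kc G (nb G univ v) (p + 3))) →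
    (kc G univ (p + 4) : ℝ) * ((p + 4) * a + r) ≤
      a * bal (p + 3) ((p + 3) * a + r) * Fintype.card V

/-- (TUR) The Turán graph with `Δ + a` vertices. Generalise `tur_deg`, `tur_lower` of
`Pool/Agent/H46/KW/Tur.lean` (the case `r = 1`). The residue class of `i` has `a + 1` elements for
`i < r` and `a` for `i ≥ r`; degrees: `(p+4) a + r` minus the size of the class. Count: at least
`(a + 1) ^ r * a ^ (p + 4 - r)` (choice functions `Fintype.piFinset`; the other inequality is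
`zyk` with `bal (p+4) ((p+4) a + r)`), and `a * bal (p+3) ((p+3) a + r)` is this number
(`bal` unfolded, `Nat.mul_add_div`, `Nat.mul_add_mod`, `r < p + 3`). -/
def TURStmt : Prop :=
  ∀ p r a : ℕ, r ≤ p + 1 → 1 ≤ a →
    (∀ v, ((SimpleGraph.turanGraph ((p + 4) * a + r) (p + 4)).neighborSet v).ncard ≤
      (p + 3) * a + r) ∧
    (SimpleGraph.turanGraph ((p + 4) * a + r) (p + 4)).CliqueFree (p + 5) ∧
    {s : Finset (Fin ((p + 4) * a + r)) |
      (SimpleGraph.turanGraph ((p + 4) * a + r) (p + 4)).IsNClique (p + 4) s}.ncard =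
      a ^ (p + 4 - r) * (a + 1) ^ r ∧
    a * bal (p + 3) ((p + 3) * a + r) = a ^ (p + 4 - r) * (a + 1) ^ r

/-! ### Transversals -/

/-- (TRV) Cliques with `b` vertices in the union of `b` disjoint independent sets are the
transversals which are cliques. PROOF. `f ↦ univ.image f` is a bijection from `trv G P` onto
`clq G (un P) b` (`Finset.sum_bij'` or `sum_nbij`): injective since `f i` is the only element of the
image in `P i`; onto since a clique has at most one element in each `P i`, so exactly one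
(compare `Pool.Agent.H46.KW.surj`). -/
def TRVStmt : Prop :=
  ∀ {V : Type} [DecidableEq V] (G : SimpleGraph V) {b : ℕ} (P : Fin b → Finset V), Par G P →
    kc G (un P) b = (trv G P).card ∧
    ∀ F : Finset V → ℝ, ∑ K ∈ clq G (un P) b, F K = ∑ f ∈ trv G P, F (univ.image f)

/-- (BRK) Broken transversals. For `i ≠ k` let `B i k` be the set of `f ∈ piFinset P` with
`¬ G.Adj (f i) (f k)`; its cardinality is `(∑_(u ∈ P i) (non G (P k) u).card) * ∏_(l ≠ i, k) card`.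
(1) every `f ∉ trv` is in some `B i k`; the product of the other `p + 1` cardinalities is
`≤ D ^ (p + 1)`. (2) every `f` is in at most `(p + 3) ^ 2` sets `B i k`, and the `f` in them are not in
`trv`; the other product is `≥ d ^ (p + 1)`. (3) monotone. -/
def BRKStmt : Prop :=
  ∀ {V : Type} [DecidableEq V] (G : SimpleGraph V) (p : ℕ) (P : Fin (p + 3) → Finset V),
    (∀ D : ℕ, (∀ i, (P i).card ≤ D) →
      ∏ i, (P i).card ≤ (trv G P).card + tot G P * D ^ (p + 1)) ∧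
    (∀ d : ℕ, (∀ i, d ≤ (P i).card) →
      tot G P * d ^ (p + 1) + (p + 3) ^ 2 * (trv G P).card ≤ (p + 3) ^ 2 * ∏ i, (P i).card) ∧
    (∀ S : Fin (p + 3) → Finset V, (∀ i, S i ⊆ P i) → tot G S ≤ tot G P)

/-! ### The structure of a dense graph -/

/-- (KZR) A clique which sees almost everything.
PROOF. `b = p + 3`, `h = W.card`, `k = kc G W b`. `facets_cs` (at `p + 2`): `(b k) ^ 2 ≤ kc G W (b-1) *
∑_L ∑_z nz`; `zyk_real'`: `kc G W (b-1) ≤ b (h/b) ^ (b-1)`. If all `∑_z nz < h - 4 b ^ 2` then (so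
`h ≥ 4 b ^ 2`, `k > 0`) `b k < (h - 4 b ^ 2) (h/b) ^ (b-1)`, i.e. `k < (h/b) ^ b (1 - 4 b ^ 2 / h)`,
which is increasing in `h ≥ 4 b ^ 2` and `h ≤ b (a + 1)`: `k < (a+1) ^ b (1 - 4 b / (a+1))`. But
`k ≥ a * bal / (a + r) ≥ a ^ (b+1) / (a + b) ≥ (a+1) ^ b (1 - 3 b / (a+1))` for `a` large
(`bal b (b a + r) ≥ a ^ b`; `(a / (a+1)) ^ b ≥ 1 - b/(a+1)` Bernoulli). -/
def KZRStmt : Prop :=
  ∀ p r : ℕ, r ≤ p + 1 → ∃ a₀ : ℕ, ∀ a ≥ a₀, ∀ {V : Type} [DecidableEq V] (G : SimpleGraph V)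
    (W : Finset V), CB G W (p + 3) → W.card ≤ (p + 3) * a + r →
    a * bal (p + 3) ((p + 3) * a + r) ≤ (a + r) * kc G W (p + 3) →
    ∃ L ∈ clq G W (p + 3), W.card ≤ ∑ z ∈ L, nz G W L z + 4 * (p + 3) ^ 2

/-- (PRT) The parts determined by a clique, indexed by `Fin (p + 3)` (`L.equivFinOfCardEq`):
`A i = cn G W (L.erase z_i)`; `parts_disj`, `parts_ind`, `cn_subset`. -/
def PRTStmt : Prop :=
  ∀ {V : Type} [DecidableEq V] (G : SimpleGraph V) (p : ℕ) (W : Finset V), CB G W (p + 3) →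
    ∀ L ∈ clq G W (p + 3), ∃ A : Fin (p + 3) → Finset V, Par G A ∧ (∀ i, A i ⊆ W) ∧
      ∑ i, (A i).card = ∑ z ∈ L, nz G W L z

/-- (PRE) First approximation. Needs KZR, PRT, AMG, TRV, BRK.
PROOF. `L` from KZR, `A` from PRT, `B = W \ un A`, `B.card ≤ 4 b ^ 2`. `kc_le_sum` (with `U = B`):
`kc G W b ≤ ∑_(u ∈ B) kc G (nb G W u) (b - 1) + kc G (un A) b ≤ 4 b ^ 2 (2 b a) ^ (b-1) + card (trv)`
(`kc_le_choose`, `W.card ≤ 2 b a`). So `card trv ≥ a ^ b (1 - b/a) - 4 b ^ 2 (2 b a) ^ (b-1) ≥ a ^ b -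
C₁ a ^ (b-1)`. Let `x i = card (A i)`, `S = b a + b ≥ ∑ x`. `∏ x ≤ (a + 1) ^ b ≤ a ^ b + C₂ a ^ (b-1)`.
AMG: `(x i - x j) ^ 2 (S/b) ^ b ≤ S ^ 2 ((S/b) ^ b - ∏ x) ≤ C₃ a ^ 2 a ^ (b-1)`, so
`(x i - x j) ^ 2 ≤ C₄ a ≤ (e a / 4) ^ 2` for `a` large. The mean of the `x i` is `≤ a + 1` and, as
`(mean) ^ b ≥ ∏ x ≥ a ^ b (1 - C₅ / a)`, at least `a - C₅`. So the sizes. Finally BRK (2) with
`d ≥ a / 2` (if `e ≤ 1/2`; for larger `e` use the result for `1/2`): `tot * (a/2) ^ (p+1) ≤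
b ^ 2 (∏ x - card trv) ≤ C₆ a ^ (b-1)`, so `tot ≤ C a` with `C` independent of `e`. -/
def PREStmt : Prop :=
  ∀ p r : ℕ, r ≤ p + 1 → ∃ C : ℝ, 0 < C ∧ ∀ e : ℝ, 0 < e → ∃ a₀ : ℕ, ∀ a ≥ a₀,
    ∀ {V : Type} [DecidableEq V] (G : SimpleGraph V) (W : Finset V), CB G W (p + 3) →
    W.card ≤ (p + 3) * a + r →
    a * bal (p + 3) ((p + 3) * a + r) ≤ (a + r) * kc G W (p + 3) →
    ∃ A : Fin (p + 3) → Finset V, Par G A ∧ (∀ i, A i ⊆ W) ∧
      (∀ i, (1 - e) * a ≤ ((A i).card : ℝ) ∧ ((A i).card : ℝ) ≤ (1 + e) * a) ∧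
      ((W \ un A).card : ℝ) ≤ C ∧ (tot G A : ℝ) ≤ C * a

/-- (RPI) Good vertices form disjoint independent sets. Needs BRK.
PROOF. Suppose `u ∈ W` misses at most `e1 p / 2 * a` vertices of every `A l`. Let
`S l = nb G (A l) u`, `S l` has between `a / 2` and `2 a` elements; BRK (1), (3) for `S`:
`(a/2) ^ (p+3) ≤ card (trv G S) + C a (2 a) ^ (p+1)`, so `trv G S` has an element `f` for `a` large;
`insert u (univ.image f)` is a clique in `W` with `p + 4` elements, against `CB`. This is (1).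
(2) Let `u`, `w` be adjacent, both missing at most `e1 p / 2 * a` vertices of `A l` for `l ≠ i`. Use
`S l = nb G (nb G (A l) u) w` for `l ≠ i`, `S i = A i`, and the clique
`{u, w} ∪ {f l : l ≠ i}` with `p + 4` elements. -/
def RPIStmt : Prop :=
  ∀ (p : ℕ) (C : ℝ), ∃ a₀ : ℕ, ∀ a ≥ a₀, ∀ {V : Type} [DecidableEq V] (G : SimpleGraph V)
    (W : Finset V) (A : Fin (p + 3) → Finset V), CB G W (p + 3) → Par G A → (∀ i, A i ⊆ W) →
    (∀ i, 3 / 4 * (a : ℝ) ≤ ((A i).card : ℝ) ∧ ((A i).card : ℝ) ≤ 5 / 4 * a) →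
    (tot G A : ℝ) ≤ C * a →
    (∀ u ∈ W, ∃ l, e1 p / 2 * a < ((non G (A l) u).card : ℝ)) ∧
    ∀ i, ∀ u ∈ W, ∀ w ∈ W, (∀ l, l ≠ i → ((non G (A l) u).card : ℝ) ≤ e1 p / 2 * a) →
      (∀ l, l ≠ i → ((non G (A l) w).card : ℝ) ≤ e1 p / 2 * a) → ¬ G.Adj u w

/-- (REA) The final parts. Needs RPI.
PROOF. `P i` = the set of `u ∈ W` with `card (non G (A l) u) ≤ e1 p / 2 * a` for all `l ≠ i`,
`U = W \ un P`. The `P i` are disjoint (`u ∈ P i ∩ P j` with `i ≠ j` contradicts RPI (1)) and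
independent (RPI (2)). A vertex of `A i \ P i` misses more than `e1 p / 2 * a` vertices of some
`A l`, `l ≠ i`, so `∑_i card (A i \ P i) ≤ tot / (e1 p / 2 * a) ≤ 2 C / e1 p`. Vertices of `P i \ A i`
are in `W \ un A` or in some `A j`, `j ≠ i`, and then in `A j \ P j`; vertices of `U` are in `W \ un A`
or in some `A i \ P i`. So `card U`, `card (P i \ A i)`, `card (A i \ P i) ≤ C₂ = C + 2 C / e1 p`.
Sizes, `mis` (`card (non (P k) u) ≤ card (non (A k) u) + card (P k \ A k) ≤ e1 p / 2 * a + C₂`) and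
`exc` (`≥ e1 p / 2 * a - C₂`) for `a` large. `tot G P`: pairs inside the `A`s are counted in
`tot G A`; a pair with a vertex `y` in some `P k \ A k` : `≤ 2 * (p+3) ^ 2 * C₂ * e1 p * a` by `mis`.
So `C' = max` of these constants. -/
def REAStmt : Prop :=
  ∀ (p : ℕ) (C : ℝ), 0 < C → ∃ C' : ℝ, 0 < C' ∧ ∀ e : ℝ, 0 < e → e ≤ 1 / 2 → ∃ a₀ : ℕ,
    ∀ a ≥ a₀, ∀ {V : Type} [DecidableEq V] (G : SimpleGraph V) (W : Finset V)
    (A : Fin (p + 3) → Finset V), CB G W (p + 3) → Par G A → (∀ i, A i ⊆ W) →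
    (∀ i, (1 - e / 2) * a ≤ ((A i).card : ℝ) ∧ ((A i).card : ℝ) ≤ (1 + e / 2) * a) →
    ((W \ un A).card : ℝ) ≤ C → (tot G A : ℝ) ≤ C * a →
    ∃ (P : Fin (p + 3) → Finset V) (U : Finset V), Str G p a e C' W P U

/-! ### The nearly complete case -/

/-- (BAS) No exceptional vertices. Needs TRV.
PROOF. `b = p + 3`, `γ = gam p`, `δ = 2 * e1 p = 1 / (8 b ^ 3)`, `p_i = card (P i)`. For `i ≠ k` let
`B i k = {f ∈ piFinset P : ¬ G.Adj (f i) (f k)}` (`B i k = B k i`), `T = ∑_(i < k) card (B i k)`.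
(a) If `{i,k} ≠ {j,l}` then `card (B i k ∩ B j l) ≤ δ card (B i k)`: say `l ∉ {i, k}`; fix all
coordinates except the one at `l`: at most `e1 p * a ≤ δ p_l` values of `f l` are not adjacent to
`f j` (`mis`, `p_l ≥ a / 2`).
(b) the number of broken transversals is `≥ T - ∑_(pairs of pairs) card (B ∩ B) ≥ (1 - b ^ 2 δ) T`.
(c) `K = univ.image f` with `f ∈ trv`, `z ∈ P i`: `(nb G K z).card = p + 2 - μ` with
`μ = #{k ≠ i : ¬ G.Adj z (f k)}` (as `z` is not adjacent to `f i`), so `gw = 0` if `μ = 0`, `γ` if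
`μ = 1`, `1` if `μ ≥ 2`; hence `gw ≤ γ μ + #{(k, l) : k < l, both ≠ i, z not adjacent to f k, f l}`.
`∑_(f ∈ piFinset P) #{z ∈ P i : ¬ Adj z (f k)} = p_i card (B i k)` (the coordinate `f i` is free), and
with two indices `p_i card (B i k ∩ B i l) ≤ p_i δ card (B i k)`. So by TRV
`∑_K sw ≤ 2 (1 + e) a T (γ + b δ)`.
(d) `2 (1 + e) (γ + b δ) ≤ 1 - b ^ 2 δ`: `2 γ = 1 - 1/(b-1) ≤ 1 - 1/b`. -/
def BASStmt : Prop :=
  ∀ {V : Type} [DecidableEq V] (G : SimpleGraph V) (p a : ℕ) (e : ℝ)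
    (P : Fin (p + 3) → Finset V), 0 ≤ e → e ≤ e1 p → 1 ≤ a → Par G P →
    (∀ i, (1 - e) * a ≤ ((P i).card : ℝ) ∧ ((P i).card : ℝ) ≤ (1 + e) * a) →
    (∀ i, ∀ u ∈ P i, ∀ k, k ≠ i → ((non G (P k) u).card : ℝ) ≤ e1 p * a) →
    ∑ K ∈ clq G (un P) (p + 3), sw G p (un P) K ≤
      a * ((∏ i, ((P i).card : ℝ)) - kc G (un P) (p + 3))

/-! ### Exceptional vertices. `X = un P`, `κ j = kc G (nb G X u) j`. -/

/-- (EXT) Extensions of cliques with `p + 1` vertices.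
PROOF. (1) `R` has at most one vertex in each part, so it misses exactly two parts `k ≠ l`. The set
`P_k' = cn G (P k) R` has at least `(1 - e - (p+1) e1 p) a ≥ 0.99 a` elements (`lo`, `mis`; the
vertices of `R` are in other parts), the same for `l`; at least `(0.99 a) ^ 2 - C a ≥ a ^ 2 / 2`
pairs in `P_k' × P_l'` are adjacent (`tot`), and `insert` of both gives different cliques
containing `R`.
(2) Count the pairs `R ⊆ K`, `R ∈ clq G (nb G X u) (p+1)`, `K ∈ clq G X (p+3)`. By (1) there are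
`≥ κ (p+1) a ^ 2 / 2`. For such `K`: `R ⊆ nb G K u`, and `nb G K u ≠ K` (`u ∈ W`, `CB G W (p+3)`),
so `(nb G K u).card` is `p + 2` (then at most `p + 2` sets `R`) or `p + 1` (at most one `R`). -/
def EXTStmt : Prop :=
  ∀ (p : ℕ) (C : ℝ), ∃ a₀ : ℕ, ∀ a ≥ a₀, ∀ {V : Type} [DecidableEq V] (G : SimpleGraph V) (e : ℝ)
    (W : Finset V) (P : Fin (p + 3) → Finset V) (U : Finset V), Str G p a e C W P U →
    e ≤ e1 p → CB G W (p + 3) →
    (∀ R ∈ clq G (un P) (p + 1), (a : ℝ) ^ 2 / 2 ≤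
      (((clq G (un P) (p + 3)).filter (fun K => R ⊆ K)).card : ℝ)) ∧
    ∀ u ∈ U, (kc G (nb G (un P) u) (p + 1) : ℝ) * a ^ 2 ≤
      2 * (p + 2) * ((cc G p (un P) (p + 2) u : ℝ) + cc G p (un P) (p + 1) u)

/-- (KBD) Cliques with few or many vertices in `B`. PROOF. Sort the cliques `K` by
`t = (K ∩ B).card`: `t = 0`: `kc G A (j+2)`; `t = 1`: at most `B.card * kc G A (j+1)`; `t ≥ 2` (so
`B ≠ ∅`): `K` is determined by `K ∩ B` (at most `2 ^ B.card` sets) and `K ∩ A` with `j + 2 - t ≤ j`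
elements (`choose (A.card) s ≤ A.card ^ s ≤ (A.card + 1) ^ j`; better: a set with exactly
`j + 2 - t` elements for given `K ∩ B`). -/
def KBDStmt : Prop :=
  ∀ {V : Type} [DecidableEq V] (G : SimpleGraph V) (A B : Finset V) (j : ℕ),
    kc G (A ∪ B) (j + 2) ≤ kc G A (j + 2) + B.card * kc G A (j + 1) +
      (if B = ∅ then 0 else 2 ^ B.card * (A.card + 1) ^ j)

/-- (CSA) Two parts with few neighbours of `u`.
PROOF. Let `Q ∈ clq G (nb G X u) (p+2)`; it misses exactly one part `k`. A vertex of `P k` adjacent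
to `u` is not adjacent to some `q ∈ Q` (else a clique with `p + 4` vertices in `W`), so
`card (nb G (P k) u) ≤ (p+2) e1 p * a`. Choose `l ∈ {k0, l1}`, `l ≠ k`, `q` the vertex of `Q` in
`P l`, `R = Q.erase q`, which misses exactly `k` and `l`. The vertices of `P k` adjacent to all of
`R` and not to `u`: at least `(1 - e - (2p+3) e1 p) a ≥ 0.98 a`; of `P l`:
`≥ (1 - e - (p+1) e1 p - 1/32) a ≥ 0.95 a`; so (`tot`) at least `0.93 a ^ 2 - C a ≥ a ^ 2 / 2` cliques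
`K ∈ clq G X (p+3)` with `nb G K u = R` (exactly). A set `R` comes from at most
`card (nb G (P k0) u) + card (nb G (P l1) u) ≤ a / 16` sets `Q`. As `K` determines `R = nb G K u`:
`cc (p+1) ≥ (number of R) a ^ 2 / 2 ≥ (κ (p+2) / (a/16)) a ^ 2 / 2`. -/
def CSAStmt : Prop :=
  ∀ (p : ℕ) (C : ℝ), ∃ a₀ : ℕ, ∀ a ≥ a₀, ∀ {V : Type} [DecidableEq V] (G : SimpleGraph V) (e : ℝ)
    (W : Finset V) (P : Fin (p + 3) → Finset V) (U : Finset V), Str G p a e C W P U →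
    e ≤ e1 p → CB G W (p + 3) → ∀ u ∈ U, ∀ k0 l1, k0 ≠ l1 →
    ((nb G (P k0) u).card : ℝ) ≤ a / 32 → ((nb G (P l1) u).card : ℝ) ≤ a / 32 →
    8 * a * (kc G (nb G (un P) u) (p + 2) : ℝ) ≤ cc G p (un P) (p + 1) u

/-- (CSB) At most one part with few neighbours of `u`. Needs TRV, BRK.
PROOF. `n i = card (nb G (P i) u)`, `Π = ∏_(l ≠ k0) n l`, `c₀ = (1/32) ^ (p+1) * e1 p / 8`,
`η = e₀ = ζ = c₀ / (64 (p+3) 2 ^ (p+2))`. All parts have at most `2 a` elements.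
(A) `n k0 ≤ ζ a`: else BRK (1), (3) for `S i = nb G (P i) u`: `ζ a (a/32) ^ (p+2) ≤ card (trv G S) +
C a (2 a) ^ (p+1)`, so for `a` large there is `f ∈ trv G S` and `insert u (image f)` contradicts
`CB G W (p+3)`.
(B) a clique with `p + 2` vertices in `nb G X u` misses exactly one part, so
`κ (p+2) ≤ ∑_k ∏_(l ≠ k) n l ≤ Π + (p+2) ζ a (2 a) ^ (p+1)`.
(C) `cc (p+2) ≥ Π (card (P k0) - n k0) - C a (2 a) ^ (p+1)`: BRK (1), (3) for `S l = nb G (P l) u`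
(`l ≠ k0`), `S k0 = non G (P k0) u`; `f ↦ image f` is injective (parts disjoint) and
`nb G (image f) u` has `p + 2` elements.
(D) `exc` (with `i = k0`): `l1 ≠ k0` with `card (non G (P l1) u) ≥ e1 p / 4 * a`; as in (C) with
`S l1 = non G (P l1) u` too: `cc (p+1) ≥ (a/32) ^ (p+1) (e1 p / 4 * a) (a / 2) - C a (2 a) ^ (p+1)
≥ c₀ a ^ (p+3) - C 2 ^ (p+1) a ^ (p+2)`.
(E) `(a + r) κ - (1 - η) cc (p+2) ≤ Π (r + (η + e + ζ) a) + 2 (p+2) ζ 2 ^ (p+1) a ^ (p+3) +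
C 2 ^ (p+1) a ^ (p+2) ≤ (p + 5) 2 ^ (p+2) ζ a ^ (p+3) + C' a ^ (p+2) ≤ c₀ a ^ (p+3) / 32 +
C' a ^ (p+2)`, and this is at most `cc (p+1) / 4` for `a` large.
(F) `Π ≤ ((1+e) a) ^ (p+1) (1 + e - e1 p / 4) a ≤ (1 + e) ^ (p+2) (1 - e1 p / 8) a ^ (p+2)`, so
`κ ≤ (1 - e1 p / 16) a ^ (p+2)` by (B). -/
def CSBStmt : Prop :=
  ∀ p : ℕ, ∃ η e₀ : ℝ, 0 < η ∧ η ≤ 1 / 4 ∧ 0 < e₀ ∧ ∀ (r : ℕ) (C : ℝ), ∃ a₀ : ℕ, ∀ a ≥ a₀,
    ∀ {V : Type} [DecidableEq V] (G : SimpleGraph V) (e : ℝ)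
    (W : Finset V) (P : Fin (p + 3) → Finset V) (U : Finset V), Str G p a e C W P U →
    0 ≤ e → e ≤ e₀ → CB G W (p + 3) → ∀ u ∈ U, ∀ k0,
    (∀ l, l ≠ k0 → (a : ℝ) / 32 ≤ ((nb G (P l) u).card : ℝ)) →
    ((a : ℝ) + r) * kc G (nb G (un P) u) (p + 2) ≤
      (1 - η) * cc G p (un P) (p + 2) u + 1 / 4 * cc G p (un P) (p + 1) u ∧
    (kc G (nb G (un P) u) (p + 2) : ℝ) ≤ (1 - e1 p / 16) * a ^ (p + 2)

/-- (CSC) Both cases together. Needs CSA, CSB, TRV.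
PROOF. If for some `k0` all `l ≠ k0` have `card (nb G (P l) u) ≥ a / 32`: CSB. Otherwise two
different parts have fewer (take `k0 = 0`, get `l`, then `k0 = l`), and CSA: `(a + r) κ ≤ 2 a κ ≤
cc (p+1) / 4` for `a ≥ r`, `κ ≤ cc (p+1) / (8 a) ≤ ∏ card (P i) / (8 a) ≤ ((1+e) a) ^ (p+3) / (8 a)
≤ a ^ (p+2) / 4` (`(1+e) ^ (p+3) ≤ 2` for `e ≤ e1 p`). Take `e₀` = minimum of that of CSB and
`e1 p`. -/
def CSCStmt : Prop :=
  ∀ p : ℕ, ∃ η e₀ : ℝ, 0 < η ∧ η ≤ 1 / 4 ∧ 0 < e₀ ∧ ∀ (r : ℕ) (C : ℝ), ∃ a₀ : ℕ, ∀ a ≥ a₀,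
    ∀ {V : Type} [DecidableEq V] (G : SimpleGraph V) (e : ℝ)
    (W : Finset V) (P : Fin (p + 3) → Finset V) (U : Finset V), Str G p a e C W P U →
    0 ≤ e → e ≤ e₀ → CB G W (p + 3) → ∀ u ∈ U,
    ((a : ℝ) + r) * kc G (nb G (un P) u) (p + 2) ≤
      (1 - η) * cc G p (un P) (p + 2) u + 1 / 4 * cc G p (un P) (p + 1) u ∧
    (kc G (nb G (un P) u) (p + 2) : ℝ) ≤ (1 - e1 p / 16) * a ^ (p + 2)

/-- (SLK) If there are exceptional vertices, there is room. Needs BAL (3), KBD.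
PROOF. `e₀ = e1 p / (1000 (p+3))`. Let `u ∈ U'`, `H = un P ∪ U'`, `H' = H.erase u`, `N = H'.card ≥
card (un P) ≥ (p+3) (1 - e) a` (`disU`, `lo`). `kc_succ` (at `u`): `kc G H (p+3) = kc G H' (p+3) +
kc G (nb G H u) (p+2)`; `zyk`: `kc G H' (p+3) ≤ bal (p+3) N`; BAL (3):
`bal (N+1) - bal N ≥ (N/(p+3)) ^ (p+2) ≥ ((1 - 2 e₀) a) ^ (p+2) ≥ (1 - 2 (p+2) e₀) a ^ (p+2) ≥
(1 - e1 p / 500) a ^ (p+2)` for `a` large. KBD with `A = nb G (un P) u`, `B = nb G U' u`, `j = p`: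
`kc G (nb G H u) (p+2) ≤ (1 - e1 p / 16) a ^ (p+2) + C (2 (p+3) a) ^ (p+1) + 2 ^ ⌈C⌉ (3 (p+3) a) ^ p`
(`kc_le_choose`). So the difference is `≥ (e1 p / 16 - e1 p / 500) a ^ (p+2) - C' a ^ (p+1) ≥
e1 p / 64 * a ^ (p+2)`. -/
def SLKStmt : Prop :=
  ∀ p : ℕ, ∃ e₀ : ℝ, 0 < e₀ ∧ ∀ C : ℝ, ∃ a₀ : ℕ, ∀ a ≥ a₀, ∀ {V : Type} [DecidableEq V]
    (G : SimpleGraph V) (e : ℝ) (W : Finset V) (P : Fin (p + 3) → Finset V) (U : Finset V),
    Str G p a e C W P U → 0 ≤ e → e ≤ e₀ → CB G W (p + 3) →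
    (∀ u ∈ U, (kc G (nb G (un P) u) (p + 2) : ℝ) ≤ (1 - e1 p / 16) * a ^ (p + 2)) →
    ∀ U' ⊆ U, U'.Nonempty → e1 p / 64 * (a : ℝ) ^ (p + 2) ≤
      (bal (p + 3) (un P ∪ U').card : ℝ) - kc G (un P ∪ U') (p + 3)

/-- (EXC) The exchange inequality. Needs CSC, EXT, KBD, SLK.
PROOF. `e₀` = minimum of those of CSC, SLK and `e1 p`. `H = un P ∪ U'`, `X = un P`.
`nb G H u = nb G X u ∪ nb G U' u`, `CB.mono`, `cc G p H j u ≥ cc G p X j u`. If `U' = ∅`: `nb G H u =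
nb G X u`; CSC, `1/4 ≤ 1 - gam p`, and `kc G H (p+3) ≤ bal` by `zyk`. If `U' ≠ ∅`: KBD and EXT (2):
`(a + r) kc G (nb G H u) (p+2) ≤ (a + r) κ (p+2) + 2 a C κ (p+1) + 2 a 2 ^ ⌈C⌉ (3 (p+3) a) ^ p`,
`2 a C κ (p+1) ≤ (4 C (p+2) / a) (cc (p+2) + cc (p+1)) ≤ min η (1/8) (cc (p+2) + cc (p+1))`, the last
term is `≤ e1 p / 64 * a ^ (p+2)` for `a` large: SLK. -/
def EXCStmt : Prop :=
  ∀ p : ℕ, ∃ e₀ : ℝ, 0 < e₀ ∧ e₀ ≤ e1 p ∧ ∀ (r : ℕ) (C : ℝ), ∃ a₀ : ℕ, ∀ a ≥ a₀,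
    ∀ {V : Type} [DecidableEq V] (G : SimpleGraph V) (e : ℝ)
    (W : Finset V) (P : Fin (p + 3) → Finset V) (U : Finset V), Str G p a e C W P U →
    0 ≤ e → e ≤ e₀ → CB G W (p + 3) → ∀ u ∈ U, ∀ U' ⊆ U, u ∉ U' →
    ((a : ℝ) + r) * kc G (nb G (un P ∪ U') u) (p + 2) ≤
      cc G p (un P ∪ U') (p + 2) u + (1 - gam p) * cc G p (un P ∪ U') (p + 1) u +
      ((bal (p + 3) (un P ∪ U').card : ℝ) - kc G (un P ∪ U') (p + 3))

/-- (IND) One vertex more. Needs BAL (1).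
PROOF. `H = un..`, `H⁺ = insert u H`. The cliques of `H⁺` are those of `H` and those through `u`, which
are `kc G (nb G H u) (p+2)` in number (`kc_succ`, `nb G H⁺ u = nb G H u`). For `K ∈ clq G H (p+3)`:
`sw G p H⁺ K = sw G p H K + gw p (nb G K u).card` and `min r (x + y) ≤ min r x + y` (`y ≥ 0`);
for `K ∋ u` use `min r _ ≤ r`. `∑_(K ∈ clq G H (p+3)) gw p (nb G K u).card = kc G H (p+3) -
cc (p+2) - (1 - gam p) cc (p+1)` since `gw p i = 1 - [i = p+2] - (1 - gam p) [i = p+1]`. BAL (1):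
`bal (p+3) N ≤ a (bal (N+1) - bal N)`. Add up. -/
def INDStmt : Prop :=
  ∀ {V : Type} [DecidableEq V] (G : SimpleGraph V) (p r a : ℕ) (H : Finset V) (u : V), u ∉ H →
    H.card + 1 ≤ (p + 3) * a + (p + 3) →
    ((a : ℝ) + r) * kc G (nb G H u) (p + 2) ≤
      cc G p H (p + 2) u + (1 - gam p) * cc G p H (p + 1) u +
      ((bal (p + 3) H.card : ℝ) - kc G H (p + 3)) →
    ∑ K ∈ clq G H (p + 3), min (r : ℝ) (sw G p H K) ≤
      a * ((bal (p + 3) H.card : ℝ) - kc G H (p + 3)) →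
    ∑ K ∈ clq G (insert u H) (p + 3), min (r : ℝ) (sw G p (insert u H) K) ≤
      a * ((bal (p + 3) (insert u H).card : ℝ) - kc G (insert u H) (p + 3))

/-! ### Assembly (helper7) -/

/-- (LOC) The local inequality. -/
def LOCStmt : Prop :=
  ∀ p r : ℕ, r ≤ p + 1 → ∃ a₀ : ℕ, ∀ a ≥ a₀, ∀ {V : Type} [DecidableEq V] (G : SimpleGraph V)
    (W : Finset V), CB G W (p + 3) → W.card ≤ (p + 3) * a + r →
    ∑ L ∈ clq G W (p + 3), min (r : ℝ)
      ((((p + 3) * a + r : ℕ) : ℝ) - W.card + sw G p W L) ≤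
        a * ((bal (p + 3) ((p + 3) * a + r) : ℝ) - kc G W (p + 3))

end Pool.KQ
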